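import Mathlib
import Pool.Agent.H.MP_82b8ed_al.Lin

set_option autoImplicit false
set_option maxHeartbeats 400000

open Matrix ComplexConjugate Pool.Agent.H.MP_82b8ed_al

namespace Pool.Agent.Results.MP_82b8ed_al.TameNotAnosov

/-- `x` and `y` are `φ`-conjugate: `x = z y φ(z)⁻¹` for some `z`. -/
def TwistedConj {G : Type} [Group G] (φ : MulAut G) (x y : G) : Prop :=
  ∃ z, x = z * y * (φ z)⁻¹

/-- `R(φⁿ) < ∞` for every `n > 0`. -/
def Tame {G : Type} [Group G] (φ : MulAut G) : Prop :=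
  ∀ n : ℕ, 0 < n → Finite (Quot (TwistedConj (φ ^ n)))

/-- `μ` is an eigenvalue of `ψ` on `Hom(G, ℂ)`: a nonzero additive character `f` has
`f ∘ ψ = μ f`. -/
def AbEigenvalue {G : Type} [Group G] (ψ : MulAut G) (μ : ℂ) : Prop :=
  ∃ f : G → ℂ, (∀ x y, f (x * y) = f x + f y) ∧ f ≠ 0 ∧ ∀ x, f (ψ x) = μ * f x

def β (x y : Fin 8 → ℤ) : Fin 4 → ℤ :=
  ![x 0 * y 4 + x 2 * y 6 - x 3 * y 7, x 0 * y 5 + x 2 * y 7 + x 3 * y 6,
    x 2 * y 4 + x 3 * y 5 + x 1 * y 6, x 2 * y 5 - x 3 * y 4 + x 1 * y 7]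

theorem β_add_left (x y z : Fin 8 → ℤ) : β (x + y) z = β x z + β y z := by
  funext i; fin_cases i <;> simp [β] <;> ring
theorem β_add_right (x y z : Fin 8 → ℤ) : β x (y + z) = β x y + β x z := by
  funext i; fin_cases i <;> simp [β] <;> ring
theorem β_zero_left (x : Fin 8 → ℤ) : β 0 x = 0 := by funext i; fin_cases i <;> simp [β]
theorem β_zero_right (x : Fin 8 → ℤ) : β x 0 = 0 := by funext i; fin_cases i <;> simp [β]
theorem β_neg_left (x y : Fin 8 → ℤ) : β (-x) y = -β x y := by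
  funext i; fin_cases i <;> simp [β] <;> ring

@[ext] structure N where
  p : Fin 8 → ℤ
  w : Fin 4 → ℤ

instance : Mul N := ⟨fun x y => ⟨x.p + y.p, x.w + y.w + β x.p y.p⟩⟩
instance : One N := ⟨⟨0, 0⟩⟩
instance : Inv N := ⟨fun x => ⟨-x.p, -x.w + β x.p x.p⟩⟩
@[simp] theorem mul_p (x y : N) : (x * y).p = x.p + y.p := rfl
@[simp] theorem mul_w (x y : N) : (x * y).w = x.w + y.w + β x.p y.p := rfl
@[simp] theorem one_p : (1 : N).p = 0 := rfl
@[simp] theorem one_w : (1 : N).w = 0 := rfl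
@[simp] theorem inv_p (x : N) : (x⁻¹).p = -x.p := rfl
@[simp] theorem inv_w (x : N) : (x⁻¹).w = -x.w + β x.p x.p := rfl

instance : Group N := Group.ofLeftAxioms
  (fun x y z => N.ext (add_assoc _ _ _) (by
    simp only [mul_w, mul_p, β_add_left, β_add_right]; abel))
  (fun x => N.ext (zero_add _) (by simp [β_zero_left]))
  (fun x => N.ext (neg_add_cancel _) (by simp [β_neg_left]))

def π : N →* Multiplicative (Fin 8 → ℤ) where
  toFun x := Multiplicative.ofAdd x.p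
  map_one' := rfl
  map_mul' _ _ := rfl

def ι : Multiplicative (Fin 4 → ℤ) →* N where
  toFun w := ⟨0, w.toAdd⟩
  map_one' := rfl
  map_mul' _ _ := N.ext (by simp) (by simp [β_zero_left])

theorem cen (x y : N) (h : x.p = 0) : y * x = x * y :=
  N.ext (add_comm _ _) (by simp [h, β_zero_left, β_zero_right, add_comm])

theorem fg : Group.FG N := by
  classical
  obtain ⟨S, hS⟩ := (Group.fg_def.1 (inferInstance : Group.FG (Multiplicative (Fin 8 → ℤ))))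
  obtain ⟨T, hT⟩ := (Group.fg_def.1 (inferInstance : Group.FG (Multiplicative (Fin 4 → ℤ))))
  refine Group.fg_iff.2 ⟨
    (fun s : Multiplicative (Fin 8 → ℤ) => (⟨s.toAdd, 0⟩ : N)) '' S ∪ ι '' T, ?_,
    (S.finite_toSet.image _).union (T.finite_toSet.image _)⟩
  set K := Subgroup.closure
    ((fun s : Multiplicative (Fin 8 → ℤ) => (⟨s.toAdd, 0⟩ : N)) '' (S : Set _) ∪ ι '' (T : Set _))
  have h1 : ∀ w, ι w ∈ K := fun w => by
    have : Subgroup.closure (T : Set _) ≤ K.comap ι :=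
      (Subgroup.closure_le _).2 fun t ht => Subgroup.subset_closure (Or.inr ⟨t, ht, rfl⟩)
    exact this (hT ▸ Subgroup.mem_top w)
  have h2 : Subgroup.closure (S : Set _) ≤ K.map π :=
    (Subgroup.closure_le _).2 fun s hs => ⟨_, Subgroup.subset_closure (Or.inl ⟨s, hs, rfl⟩), rfl⟩
  rw [eq_top_iff]
  intro x _
  obtain ⟨k, hk, e⟩ := h2 (hS ▸ Subgroup.mem_top (π x))
  have e' : k.p = x.p := e
  have : x = ι (Multiplicative.ofAdd (x * k⁻¹).w) * k := by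
    rw [← mul_inv_eq_iff_eq_mul]
    exact N.ext (by simp [ι, e']) rfl
  rw [this]; exact K.mul_mem (h1 _) hk

theorem nilp : Group.IsNilpotent N :=
  Subgroup.isNilpotent_of_ker_le_center π fun x hx => Subgroup.mem_center_iff.2 fun y => cen x y hx

theorem tfree (x : N) (n : ℕ) (hn : 0 < n) (h : x ^ n = 1) : x = 1 := by
  have h1 : π x = 1 := by
    have := congrArg π h
    rw [map_pow, map_one] at this
    exact (pow_eq_one_iff_left hn.ne').1 this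
  have h2 : x = ι (Multiplicative.ofAdd x.w) := N.ext h1 rfl
  rw [h2, ← map_pow] at h
  have h3 : Multiplicative.ofAdd x.w ^ n = 1 := congrArg (fun z => Multiplicative.ofAdd z.w) h
  rw [h2, (pow_eq_one_iff_left hn.ne').1 h3, map_one]

def P : Matrix (Fin 8) (Fin 8) ℤ := !![2, 1, -2, 2, 0, 0, 0, 0; 1, 0, 0, 0, 0, 0, 0, 0;
  1, 0, -1, 0, 0, 0, 0, 0; 1, 0, 0, 1, 0, 0, 0, 0; 0, 0, 0, 0, 0, 0, -1, 0;
  0, 0, 0, 0, 0, 0, 0, -1; 0, 0, 0, 0, 1, 0, 1, 1; 0, 0, 0, 0, 0, 1, -1, 1]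
def P' : Matrix (Fin 8) (Fin 8) ℤ := !![0, 1, 0, 0, 0, 0, 0, 0; 1, 2, -2, -2, 0, 0, 0, 0;
  0, 1, -1, 0, 0, 0, 0, 0; 0, -1, 0, 1, 0, 0, 0, 0; 0, 0, 0, 0, 1, 1, 1, 0;
  0, 0, 0, 0, -1, 1, 0, 1; 0, 0, 0, 0, -1, 0, 0, 0; 0, 0, 0, 0, 0, -1, 0, 0]
def C : Matrix (Fin 4) (Fin 4) ℤ := !![1, -1, -1, 0; 1, 1, 0, -1; 1, 0, 0, 0; 0, 1, 0, 0]
def C' : Matrix (Fin 4) (Fin 4) ℤ := !![0, 0, 1, 0; 0, 0, 0, 1; -1, 0, 1, -1; 0, -1, 1, 1]

theorem βP (x y : Fin 8 → ℤ) : C *ᵥ β x y = β (P *ᵥ x) (P *ᵥ y) := by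
  funext i
  fin_cases i <;>
    simp [β, P, C, mulVec, dotProduct, Fin.sum_univ_eight, Fin.sum_univ_four] <;> ring

def φ : MulAut N where
  toFun x := ⟨P *ᵥ x.p, C *ᵥ x.w⟩
  invFun x := ⟨P' *ᵥ x.p, C' *ᵥ x.w⟩
  left_inv x := N.ext
    (by simp only [mulVec_mulVec, show P' * P = 1 by decide +kernel, one_mulVec])
    (by simp only [mulVec_mulVec, show C' * C = 1 by decide +kernel, one_mulVec])
  right_inv x := N.ext
    (by simp only [mulVec_mulVec, show P * P' = 1 by decide +kernel, one_mulVec])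
    (by simp only [mulVec_mulVec, show C * C' = 1 by decide +kernel, one_mulVec])
  map_mul' x y := N.ext (by simp only [mul_p, mulVec_add]) (by simp only [mul_w, mulVec_add, βP])

theorem φ_pow (n : ℕ) (x : N) : (φ ^ n) x = ⟨(P ^ n) *ᵥ x.p, (C ^ n) *ᵥ x.w⟩ := by
  induction n with
  | zero => simp
  | succ n ih =>
    rw [pow_succ', MulAut.mul_apply, ih, pow_succ', pow_succ', ← mulVec_mulVec, ← mulVec_mulVec]
    rfl

theorem tame : Tame φ := by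
  intro n hn
  have dP := det_ne P n fun ν u h e => by
    have hA := rootA ν n hn h
    have hD := rootD ν n hn h
    have e0 := congrFun e 0
    have e1 := congrFun e 1
    have e2 := congrFun e 2
    have e3 := congrFun e 3
    have e4 := congrFun e 4
    have e5 := congrFun e 5
    have e6 := congrFun e 6
    have e7 := congrFun e 7
    simp [P, mulVec, dotProduct, Fin.sum_univ_eight] at e0 e1 e2 e3 e4 e5 e6 e7
    have a : u 0 = 0 ∧ u 1 = 0 ∧ u 2 = 0 ∧ u 3 = 0 := by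
      clear e4 e5 e6 e7 hD e h
      refine ⟨?_, ?_, ?_, ?_⟩ <;> apply mul_left_cancel₀ hA <;> grind
    have b : u 4 = 0 ∧ u 5 = 0 ∧ u 6 = 0 ∧ u 7 = 0 := by
      clear e0 e1 e2 e3 hA e h a
      refine ⟨?_, ?_, ?_, ?_⟩ <;> apply mul_left_cancel₀ hD <;> grind
    funext i; fin_cases i
    exacts [a.1, a.2.1, a.2.2.1, a.2.2.2, b.1, b.2.1, b.2.2.1, b.2.2.2]
  have dC := det_ne C n fun ν u h e => by
    have hD := rootD ν n hn h
    have e0 := congrFun e 0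
    have e1 := congrFun e 1
    have e2 := congrFun e 2
    have e3 := congrFun e 3
    simp [C, mulVec, dotProduct, Fin.sum_univ_four] at e0 e1 e2 e3
    have a : u 0 = 0 ∧ u 1 = 0 ∧ u 2 = 0 ∧ u 3 = 0 := by
      clear e h
      refine ⟨?_, ?_, ?_, ?_⟩ <;> apply mul_left_cancel₀ hD <;> grind
    funext i; fin_cases i
    exacts [a.1, a.2.1, a.2.2.1, a.2.2.2]
  obtain ⟨R, hR, h1⟩ := reps _ dP
  obtain ⟨R', hR', h2⟩ := reps _ dC
  have := (hR.prod hR').to_subtype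
  refine Finite.of_surjective (fun r : R ×ˢ R' => Quot.mk _ (⟨r.1.1, r.1.2⟩ : N)) fun q => ?_
  obtain ⟨x, rfl⟩ := Quot.exists_rep q
  obtain ⟨r, hr, u, hu⟩ := h1 x.p
  let x' := (⟨u, 0⟩ : N)⁻¹ * x * (φ ^ n) ⟨u, 0⟩
  obtain ⟨r', hr', t, ht⟩ := h2 x'.w
  refine ⟨⟨(r, r'), hr, hr'⟩, (Quot.sound ⟨⟨u, 0⟩ * ⟨0, t⟩, ?_⟩).symm⟩
  have e : x' = ⟨0, t⟩ * ⟨r, r'⟩ * ((φ ^ n) ⟨0, t⟩)⁻¹ := by
    apply N.ext
    · simp only [x', φ_pow, mul_p, inv_p, hu, sub_mulVec, one_mulVec, mulVec_zero]; abel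
    · rw [ht]
      simp only [φ_pow, mul_w, mul_p, inv_p, inv_w, sub_mulVec, one_mulVec, mulVec_zero,
        β_zero_left, neg_zero, β_zero_right]
      abel
  rw [map_mul, _root_.mul_inv_rev]
  calc x = ⟨u, 0⟩ * x' * ((φ ^ n) ⟨u, 0⟩)⁻¹ := by simp only [x']; group
    _ = _ := by rw [e]; group

def q (x : Fin 8 → ℤ) : ℤ := x 0 * x 1 - x 2 * x 2 - x 3 * x 3
def Low (x : Fin 8 → ℤ) : Prop := x 4 = 0 ∧ x 5 = 0 ∧ x 6 = 0 ∧ x 7 = 0

theorem rank2 (x : Fin 8 → ℤ) (U V : Fin 4 → ℤ)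
    (h : ∀ y, ∃ a b : ℤ, β x y - β y x = a • U + b • V) : Low x ∧ q x = 0 := by
  have d3 : ∀ y1 y2 y3 (i j k : Fin 4),
      (β x y1 - β y1 x) i * ((β x y2 - β y2 x) j * (β x y3 - β y3 x) k -
        (β x y2 - β y2 x) k * (β x y3 - β y3 x) j) -
      (β x y1 - β y1 x) j * ((β x y2 - β y2 x) i * (β x y3 - β y3 x) k -
        (β x y2 - β y2 x) k * (β x y3 - β y3 x) i) +
      (β x y1 - β y1 x) k * ((β x y2 - β y2 x) i * (β x y3 - β y3 x) j -
        (β x y2 - β y2 x) j * (β x y3 - β y3 x) i) = 0 := by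
    intro y1 y2 y3 i j k
    obtain ⟨a1, b1, e1⟩ := h y1
    obtain ⟨a2, b2, e2⟩ := h y2
    obtain ⟨a3, b3, e3⟩ := h y3
    simp only [e1, e2, e3, Pi.add_apply, Pi.smul_apply, smul_eq_mul]; ring
  have z : ∀ a b : ℤ, a * (a * a + b * b) = 0 → a = 0 := fun a b e => by
    rcases mul_eq_zero.1 e with e | e
    · exact e
    · nlinarith [mul_self_nonneg a, mul_self_nonneg b]
  have s1 := d3 (Pi.single 0 1) (Pi.single 2 1) (Pi.single 3 1) 0 2 3
  have s2 := d3 (Pi.single 0 1) (Pi.single 2 1) (Pi.single 3 1) 1 2 3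
  have s3 := d3 (Pi.single 1 1) (Pi.single 2 1) (Pi.single 3 1) 0 1 2
  have s4 := d3 (Pi.single 1 1) (Pi.single 2 1) (Pi.single 3 1) 0 1 3
  have t1 := d3 (Pi.single 4 1) (Pi.single 5 1) (Pi.single 6 1) 0 1 2
  have t2 := d3 (Pi.single 4 1) (Pi.single 5 1) (Pi.single 6 1) 0 2 3
  have t3 := d3 (Pi.single 4 1) (Pi.single 5 1) (Pi.single 6 1) 1 2 3
  simp only [β, Pi.sub_apply, cons_val_zero, cons_val_one, cons_val, Pi.single_apply,
    Fin.reduceEq, if_true, if_false] at s1 s2 s3 s4 t1 t2 t3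
  refine ⟨⟨z _ (x 5) (by linear_combination s1), z _ (x 4) (by linear_combination s2),
    z _ (x 7) (by linear_combination -s3), z _ (x 6) (by linear_combination -s4)⟩, ?_⟩
  apply mul_self_eq_zero.1
  simp only [q]
  linear_combination x 1 * t1 + x 2 * t2 + x 3 * t3

theorem central (x : N) (h : ∀ y, y * x = x * y) : x.p = 0 := by
  have e : ∀ y, β x.p y - β y x.p = 0 := fun y => by
    have := congrArg N.w (h ⟨y, 0⟩)
    simp only [mul_w] at this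
    linear_combination -this
  have a := congrFun (e (Pi.single 4 1))
  have b := congrFun (e (Pi.single 6 1)) 2
  have c := congrFun (e (Pi.single 2 1))
  have a0 := a 0
  have a2 := a 2
  have a3 := a 3
  have c0 := c 0
  have c1 := c 1
  have c2 := c 2
  have c3 := c 3
  simp [β] at a0 a2 a3 b c0 c1 c2 c3
  funext i; fin_cases i <;> assumption

theorem aut (ψ : MulAut N) : ∃ (M : Matrix (Fin 8) (Fin 8) ℤ) (c : ℤ),
    (∀ x, (ψ x).p = M *ᵥ x.p) ∧ ∀ x, Low x → Low (M *ᵥ x) ∧ q (M *ᵥ x) = c * q x := by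
  have z : ∀ x : N, x.p = 0 → (ψ x).p = 0 := fun x hx => central _ fun y => by
    obtain ⟨y, rfl⟩ := ψ.surjective y
    rw [← map_mul, ← map_mul, cen x y hx]
  have dec : ∀ x : N, (ψ x).p = (ψ ⟨x.p, 0⟩).p := fun x => by
    have : x = ⟨0, x.w⟩ * ⟨x.p, 0⟩ := N.ext (by simp) (by simp [β_zero_left])
    conv_lhs => rw [this, map_mul, mul_p, z _ rfl, zero_add]
  let m : (Fin 8 → ℤ) →+ (Fin 8 → ℤ) := AddMonoidHom.mk' (fun x => (ψ ⟨x, 0⟩).p) fun x y => by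
    rw [← mul_p, ← map_mul, dec (_ * _)]; rfl
  let cm : (Fin 4 → ℤ) →+ (Fin 4 → ℤ) := AddMonoidHom.mk' (fun w => (ψ ⟨0, w⟩).w) fun x y => by
    have : (⟨0, x + y⟩ : N) = ⟨0, x⟩ * ⟨0, y⟩ := N.ext (by simp) (by simp [β_zero_left])
    rw [this, map_mul, mul_w, z _ rfl, β_zero_left, add_zero]
  have hm : ∀ x : N, (ψ x).p = m x.p := dec
  have comm : ∀ x y, β (m x) (m y) - β (m y) (m x) = cm (β x y - β y x) := fun x y => by
    have : (⟨x, 0⟩ * ⟨y, 0⟩ : N) = ⟨0, β x y - β y x⟩ * (⟨y, 0⟩ * ⟨x, 0⟩) :=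
      N.ext (by simp [add_comm]) (by simp [β_zero_left])
    have h := congrArg (fun g => (ψ g).w) this
    simp only [map_mul, mul_w, z ⟨0, _⟩ rfl, β_zero_left, hm] at h
    show _ = (ψ ⟨0, _⟩).w
    linear_combination h
  have key : ∀ (x : Fin 8 → ℤ) (U V : Fin 4 → ℤ),
      (∀ y, ∃ a b : ℤ, β x y - β y x = a • U + b • V) → Low (m x) ∧ q (m x) = 0 := by
    intro x U V h
    refine rank2 _ (cm U) (cm V) fun y => ?_
    obtain ⟨g, hg⟩ := ψ.surjective ⟨y, 0⟩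
    have : y = m g.p := by rw [← hm, hg]
    obtain ⟨a, b, e⟩ := h g.p
    exact ⟨a, b, by rw [this, comm, e, map_add, map_zsmul, map_zsmul]⟩
  let M := LinearMap.toMatrix' m.toIntLinearMap
  have hM : ∀ x, m x = M *ᵥ x := fun x => by simp [M]
  have k1 := key (Pi.single 1 1) (Pi.single 2 1) (Pi.single 3 1) fun y => ⟨y 6, y 7, by
    funext i; fin_cases i <;> simp [β]⟩
  have k2 : ∀ a b : ℤ, _ := fun a b => key ![1, a * a + b * b, a, b, 0, 0, 0, 0] ![1, 0, a, -b]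
    ![0, 1, b, a] fun y => ⟨y 4 + a * y 6 - b * y 7, y 5 + a * y 7 + b * y 6, by
      funext i; fin_cases i <;> simp [β] <;> ring⟩
  simp only [hM] at k1 k2
  refine ⟨M, q (M *ᵥ ![1, 1, 0, 0, 0, 0, 0, 0]), fun x => (hm x).trans (hM _), ?_⟩
  clear_value M
  have k3 := k2 0 0
  have k4 := k2 1 0
  have k5 := k2 (-1) 0
  have k6 := k2 0 1
  have k7 := k2 0 (-1)
  have k8 := k2 2 0
  have k9 := k2 0 2
  have k10 := k2 1 1
  rintro x ⟨x4, x5, x6, x7⟩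
  simp only [Low, q, mulVec, dotProduct, Fin.sum_univ_eight, Pi.single_apply, Fin.reduceEq, if_true,
    if_false, cons_val_zero, cons_val_one, cons_val, x4, x5, x6, x7] at k1 k3 k4 k5 k6 k7 k8 k9 k10 ⊢
  obtain ⟨⟨a1, a2, a3, a4⟩, q1⟩ := k1
  obtain ⟨⟨b1, b2, b3, b4⟩, q3⟩ := k3
  obtain ⟨⟨c1, c2, c3, c4⟩, q4⟩ := k4
  obtain ⟨⟨d1, d2, d3, d4⟩, q6⟩ := k6
  obtain ⟨-, q5⟩ := k5
  obtain ⟨-, q7⟩ := k7
  obtain ⟨-, q8⟩ := k8
  obtain ⟨-, q9⟩ := k9
  obtain ⟨-, q10⟩ := k10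
  refine ⟨⟨?_, ?_, ?_, ?_⟩, ?_⟩
  · linear_combination x 0 * b1 + x 1 * a1 + x 2 * (c1 - a1 - b1) + x 3 * (d1 - a1 - b1)
  · linear_combination x 0 * b2 + x 1 * a2 + x 2 * (c2 - a2 - b2) + x 3 * (d2 - a2 - b2)
  · linear_combination x 0 * b3 + x 1 * a3 + x 2 * (c3 - a3 - b3) + x 3 * (d3 - a3 - b3)
  · linear_combination x 0 * b4 + x 1 * a4 + x 2 * (c4 - a4 - b4) + x 3 * (d4 - a4 - b4)
  · apply mul_left_cancel₀ (show (12 : ℤ) ≠ 0 by norm_num)
    linear_combination ((-12) * x 0 * x 1 + (24) * x 0 * x 2 + (24) * x 0 * x 3 + (12) * x 1 * x 1 + (-24) * x 1 * x 2 + (-24) * x 1 * x 3 + (24) * x 2 * x 3) * q1 +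
      ((12) * x 0 * x 0 + (-12) * x 0 * x 1 + (-6) * x 0 * x 2 + (-6) * x 0 * x 3 + (6) * x 1 * x 2 + (6) * x 1 * x 3) * q3 +
      ((12) * x 0 * x 2 + (-6) * x 1 * x 2 + (6) * x 2 * x 2 + (-6) * x 2 * x 3) * q4 +
      ((-4) * x 0 * x 2 + (-2) * x 1 * x 2 + (6) * x 2 * x 2 + (2) * x 2 * x 3) * q5 +
      ((12) * x 0 * x 3 + (-6) * x 1 * x 3 + (-6) * x 2 * x 3 + (6) * x 3 * x 3) * q6 +
      ((-4) * x 0 * x 3 + (-2) * x 1 * x 3 + (2) * x 2 * x 3 + (6) * x 3 * x 3) * q7 +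
      ((-2) * x 0 * x 2 + (2) * x 1 * x 2 + (-2) * x 2 * x 3) * q8 +
      ((-2) * x 0 * x 3 + (2) * x 1 * x 3 + (-2) * x 2 * x 3) * q9 +
      ((12) * x 2 * x 3) * q10

theorem eig (ψ : MulAut N) : ∃ μ : ℂ, ‖μ‖ = 1 ∧ AbEigenvalue ψ μ := by
  obtain ⟨M, c, h1, h2⟩ := aut ψ
  obtain ⟨M', c', h1', h2'⟩ := aut ψ⁻¹
  have hc : c * c' = 1 := by
    let x : Fin 8 → ℤ := ![1, 1, 0, 0, 0, 0, 0, 0]
    have lx : Low x := ⟨rfl, rfl, rfl, rfl⟩
    have e : M *ᵥ (M' *ᵥ x) = x := by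
      have := h1 (ψ⁻¹ ⟨x, 0⟩)
      rw [MulAut.apply_inv_self, h1'] at this
      exact this.symm
    have := (h2 _ (h2' x lx).1).2
    rw [e, (h2' x lx).2, show q x = 1 from rfl] at this
    linear_combination -this
  have hcc : c * c = 1 := by
    rcases Int.eq_one_or_neg_one_of_mul_eq_one hc with rfl | rfl <;> rfl
  have g : ∀ a b d e : ℤ, _ := fun a b d e => h2 ![a, b, d, e, 0, 0, 0, 0] ⟨rfl, rfl, rfl, rfl⟩
  have g0 := g 1 0 0 0
  have g1 := g 0 1 0 0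
  have g2 := g 0 0 1 0
  have g3 := g 0 0 0 1
  have g01 := (g 1 1 0 0).2
  have g02 := (g 1 0 1 0).2
  have g03 := (g 1 0 0 1).2
  have g12 := (g 0 1 1 0).2
  have g13 := (g 0 1 0 1).2
  have g23 := (g 0 0 1 1).2
  simp only [Low, q, mulVec, dotProduct, Fin.sum_univ_eight, cons_val_zero, cons_val_one, cons_val,
    mul_zero, mul_one, add_zero, zero_add, sub_zero] at g0 g1 g2 g3 g01 g02 g03 g12 g13 g23
  obtain ⟨⟨a1, a2, a3, a4⟩, q0⟩ := g0
  obtain ⟨⟨b1, b2, b3, b4⟩, q1⟩ := g1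
  obtain ⟨⟨c1, c2, c3, c4⟩, q2⟩ := g2
  obtain ⟨⟨d1, d2, d3, d4⟩, q3⟩ := g3
  let A : Matrix (Fin 4) (Fin 4) ℂ := !![M 0 0, M 0 1, M 0 2, M 0 3; M 1 0, M 1 1, M 1 2, M 1 3;
    M 2 0, M 2 1, M 2 2, M 2 3; M 3 0, M 3 1, M 3 2, M 3 3]
  obtain ⟨ν, u, hν, hu, e⟩ := lorentz' A.mulVecLin c (by exact_mod_cast hcc) fun x y => by
    have r0 := congrArg (Int.cast : ℤ → ℂ) q0
    have r1 := congrArg (Int.cast : ℤ → ℂ) q1
    have r2 := congrArg (Int.cast : ℤ → ℂ) q2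
    have r3 := congrArg (Int.cast : ℤ → ℂ) q3
    have r01 := congrArg (Int.cast : ℤ → ℂ) g01
    have r02 := congrArg (Int.cast : ℤ → ℂ) g02
    have r03 := congrArg (Int.cast : ℤ → ℂ) g03
    have r12 := congrArg (Int.cast : ℤ → ℂ) g12
    have r13 := congrArg (Int.cast : ℤ → ℂ) g13
    have r23 := congrArg (Int.cast : ℤ → ℂ) g23
    push_cast at r0 r1 r2 r3 r01 r02 r03 r12 r13 r23
    simp only [Hf, A, mulVecLin_apply, mulVec, dotProduct, Fin.sum_univ_four, of_apply,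
      cons_val', cons_val_zero, cons_val_one, cons_val, map_add, map_mul, map_intCast]
    linear_combination 2 * conj (x 0) * y 0 * r0 + 2 * conj (x 1) * y 1 * r1 +
      2 * conj (x 2) * y 2 * r2 + 2 * conj (x 3) * y 3 * r3 +
      (conj (x 0) * y 1 + conj (x 1) * y 0) * (r01 - r0 - r1) +
      (conj (x 0) * y 2 + conj (x 2) * y 0) * (r02 - r0 - r2) +
      (conj (x 0) * y 3 + conj (x 3) * y 0) * (r03 - r0 - r3) +
      (conj (x 1) * y 2 + conj (x 2) * y 1) * (r12 - r1 - r2) +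
      (conj (x 1) * y 3 + conj (x 3) * y 1) * (r13 - r1 - r3) +
      (conj (x 2) * y 3 + conj (x 3) * y 2) * (r23 - r2 - r3)
  let Q : Matrix (Fin 8) (Fin 8) ℂ := M.map (Int.castRingHom ℂ) - ν • 1
  have hd : Q.det = 0 := by
    refine Matrix.exists_mulVec_eq_zero_iff.1 ⟨![u 0, u 1, u 2, u 3, 0, 0, 0, 0], fun h => hu ?_, ?_⟩
    · funext i; fin_cases i
      exacts [congrFun h 0, congrFun h 1, congrFun h 2, congrFun h 3]
    · have e0 := congrFun e 0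
      have e1 := congrFun e 1
      have e2 := congrFun e 2
      have e3 := congrFun e 3
      simp only [A, mulVecLin_apply, mulVec, dotProduct, Fin.sum_univ_four, of_apply,
        cons_val', cons_val_zero, cons_val_one, cons_val, Pi.smul_apply, smul_eq_mul]
        at e0 e1 e2 e3
      rw [sub_mulVec, smul_mulVec, one_mulVec, sub_eq_zero]
      funext i
      fin_cases i <;>
        simp [mulVec, dotProduct, Fin.sum_univ_eight, e0, e1, e2, e3, a1, a2, a3, a4, b1, b2, b3,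
          b4, c1, c2, c3, c4, d1, d2, d3, d4]
  obtain ⟨l, hl, hl2⟩ := Matrix.exists_vecMul_eq_zero_iff.2 hd
  refine ⟨ν, hν, fun x => l ⬝ᵥ (Int.castRingHom ℂ ∘ x.p), fun x y => ?_, fun h => hl ?_,
    fun x => ?_⟩
  · beta_reduce
    rw [← dotProduct_add]; congr 1; funext i; simp
  · funext i
    have := congrFun h ⟨Pi.single i 1, 0⟩
    simpa [dotProduct, Pi.single_apply] using this
  · have e1 : Int.castRingHom ℂ ∘ (ψ x).p =
        M.map (Int.castRingHom ℂ) *ᵥ (Int.castRingHom ℂ ∘ x.p) := by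
      funext i; rw [h1]; exact RingHom.map_mulVec _ _ _ i
    have e2 : l ᵥ* M.map (Int.castRingHom ℂ) = ν • l := by
      rw [vecMul_sub, vecMul_smul, vecMul_one, sub_eq_zero] at hl2
      exact hl2
    simp only [e1, dotProduct_mulVec, e2, smul_dotProduct, smul_eq_mul]

theorem result : ∃ (N : Type) (_ : Group N), Group.FG N ∧ Group.IsNilpotent N ∧
    (∀ (x : N) (n : ℕ), 0 < n → x ^ n = 1 → x = 1) ∧ (∃ φ : MulAut N, Tame φ) ∧
      ∀ ψ : MulAut N, ∃ μ : ℂ, ‖μ‖ = 1 ∧ AbEigenvalue ψ μ :=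
  ⟨N, inferInstance, fg, nilp, tfree, ⟨φ, tame⟩, eig⟩

end Pool.Agent.Results.MP_82b8ed_al.TameNotAnosov
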